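import Pool.Agent.helper23.CU.Spec

open Finset Filter Topology

namespace CU

theorem DEC_conn {d n : ℕ} [NeZero n] (F : Site d n → ZMod 2) (h : ∀ x i, F (x + ev i) = F x)
    (x : Site d n) : F x = F 0 := by
  have hk : ∀ (k : ℕ) (x : Site d n) (i : Fin d), F (x + k • ev i) = F x := by
    intro k
    induction k with
    | zero => simp
    | succ k ih => intro x i; rw [succ_nsmul, ← add_assoc, h, ih]
  have hs : ∀ s : Finset (Fin d), F (∑ i ∈ s, (x i).val • (ev i : Site d n)) = F 0 := by
    classical
    intro s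
    induction s using Finset.induction_on with
    | empty => simp
    | insert a s ha ih => rw [Finset.sum_insert ha, add_comm, hk, ih]
  have hx : x = ∑ i, (x i).val • (ev i : Site d n) := by
    funext k
    rw [Finset.sum_apply, Finset.sum_eq_single k]
    · rw [Pi.smul_apply, ev, Pi.single_eq_same, nsmul_eq_mul, mul_one, ZMod.natCast_zmod_val]
    · intro b _ hb
      rw [Pi.smul_apply, ev, Pi.single_eq_of_ne (Ne.symm hb), smul_zero]
    · intro h0
      exact absurd (Finset.mem_univ k) h0
  have h1 := hs univ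
  rw [← hx] at h1
  exact h1

theorem DEC_bv (a b : Bool) (p : Prop) [Decidable p] (hp : p ↔ a ≠ b) :
    bv b - bv a = if p then (1 : ZMod 2) else 0 := by
  by_cases h : p
  · rw [if_pos h]
    have := hp.1 h
    revert this
    cases a <;> cases b <;> simp [bv]
  · rw [if_neg h]
    have : a = b := by
      by_contra hc
      exact h (hp.2 hc)
    rw [this, sub_self]

theorem DEC_clus {d n : ℕ} [NeZero n] (σ : Conf d n) (e e' : Edge d n) (h : e' ∈ clus σ e) :
    e' ∈ brk σ ∧ (Gr σ).Reachable e e' := by
  classical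
  unfold clus at h
  exact Finset.mem_filter.1 h

theorem DEC (hCC : CC_stmt) (hPO : PO_stmt) : DEC_stmt := by
  intro d n r _ hd hn σ hσ
  obtain ⟨hcl, hpart, hK⟩ := hCC d n (by omega) σ
  have hpot : ∀ K ∈ clusters σ, PotS r K (pot r K) := by
    intro K hKm
    obtain ⟨hne, hsub, hclus⟩ := hK K hKm
    have hex : ∃ τ, PotS r K τ := by
      refine hPO d n r hd hn K hne (hcl K hKm) ?_
      intro e he e' he'
      refine hσ e (hsub he) e' ?_
      rw [← hclus e he] at he'
      exact (DEC_clus σ e e' he').2
    unfold pot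
    rw [dif_pos hex]
    exact hex.choose_spec
  refine ⟨hpot, ?_⟩
  intro x
  set F : Site d n → ZMod 2 := fun y => bv (σ y) - ∑ K ∈ clusters σ, pot r K y with hF
  have hstep : ∀ y i, F (y + ev i) = F y := by
    intro y i
    have h1 : bv (σ (y + ev i)) - bv (σ y) = if (y, i) ∈ brk σ then (1 : ZMod 2) else 0 := by
      apply DEC_bv
      simp [brk]
    have h2 : (∑ K ∈ clusters σ, pot r K (y + ev i)) - ∑ K ∈ clusters σ, pot r K y =
        if (y, i) ∈ brk σ then (1 : ZMod 2) else 0 := by
      rw [← Finset.sum_sub_distrib, ← hpart (y, i)]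
      refine Finset.sum_congr rfl ?_
      intro K hKm
      exact (hpot K hKm).1 y i
    have h3 : F (y + ev i) - F y = (bv (σ (y + ev i)) - bv (σ y)) -
        ((∑ K ∈ clusters σ, pot r K (y + ev i)) - ∑ K ∈ clusters σ, pot r K y) := by
      simp only [hF]; ring
    rw [h1, h2, sub_self] at h3
    exact sub_eq_zero.1 h3
  have h0 := DEC_conn F hstep x
  have h4 : F 0 = eps r σ := by simp only [hF, eps]
  have h5 : bv (σ x) = F x + ∑ K ∈ clusters σ, pot r K x := by simp only [hF]; ring
  rw [h5, h0, h4]

end CU
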