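import Pool.Agent.helper23.CU.SpecE

open Finset Filter Topology

namespace CU

open Classical in
noncomputable def QG_A {n : ℕ} (F : Finset (Edge 2 n)) (S : Site 2 n → ZMod 2) :
    Finset (Finset (Edge 2 n)) := F.powerset.filter (fun η => bd η = S)

theorem QG_mem {n : ℕ} (F : Finset (Edge 2 n)) (S : Site 2 n → ZMod 2) (η : Finset (Edge 2 n)) :
    η ∈ QG_A F S ↔ η ⊆ F ∧ bd η = S := by
  classical
  unfold QG_A
  rw [Finset.mem_filter, Finset.mem_powerset]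

theorem QG_Zs {n : ℕ} (F : Finset (Edge 2 n)) (S : Site 2 n → ZMod 2) (x : ℝ) :
    Zs F S x = ∑ η ∈ QG_A F S, x ^ η.card := rfl

theorem QG_pos {n : ℕ} (F : Finset (Edge 2 n)) (x : ℝ) (hx : 0 < x) : 0 < Zs F 0 x := by
  rw [QG_Zs]
  refine Finset.sum_pos (fun η _ => pow_pos hx _) ⟨∅, ?_⟩
  rw [QG_mem]
  refine ⟨Finset.empty_subset _, ?_⟩
  funext v
  simp [bd]

theorem QG_nonneg {n : ℕ} (F : Finset (Edge 2 n)) (S : Site 2 n → ZMod 2) (x : ℝ) (hx : 0 < x) :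
    0 ≤ Zs F S x := by
  rw [QG_Zs]
  exact Finset.sum_nonneg (fun η _ => (pow_pos hx _).le)

noncomputable def QG_T {n : ℕ} (G : Finset (Edge 2 n)) (x : ℝ) (ω η ζ : Finset (Edge 2 n)) : ℝ :=
  if (η ∩ G) ∪ ζ ⊆ ω then
    x ^ (η.card + ζ.card) * (x ^ 2) ^ (ω \ (η ∪ ζ)).card * (1 - x ^ 2) ^ (G \ ω).card else 0

theorem QG_T_nonneg {n : ℕ} (G : Finset (Edge 2 n)) (x : ℝ) (hx : 0 < x) (hx1 : x < 1)
    (ω η ζ : Finset (Edge 2 n)) : 0 ≤ QG_T G x ω η ζ := by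
  have h1 : 0 ≤ 1 - x ^ 2 := by nlinarith
  unfold QG_T
  split_ifs
  · positivity
  · exact le_rfl

theorem QG_L (hQD : QD_stmt) {n : ℕ} (G : Finset (Edge 2 n))
    (A B : Finset (Finset (Edge 2 n))) (x : ℝ) (hB : ∀ ζ ∈ B, ζ ⊆ G) :
    (∑ η ∈ A, x ^ η.card) * (∑ ζ ∈ B, x ^ ζ.card) =
      ∑ ω ∈ G.powerset, ∑ η ∈ A, ∑ ζ ∈ B, QG_T G x ω η ζ := by
  calc (∑ η ∈ A, x ^ η.card) * (∑ ζ ∈ B, x ^ ζ.card)
      = ∑ η ∈ A, ∑ ζ ∈ B, ∑ ω ∈ G.powerset, QG_T G x ω η ζ := by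
        rw [Finset.sum_mul_sum]
        refine Finset.sum_congr rfl (fun η _ => Finset.sum_congr rfl (fun ζ hζ => ?_))
        rw [← pow_add, ← hQD n G η ζ x (hB ζ hζ), Finset.sum_filter]
        rfl
    _ = ∑ η ∈ A, ∑ ω ∈ G.powerset, ∑ ζ ∈ B, QG_T G x ω η ζ :=
        Finset.sum_congr rfl (fun η _ => Finset.sum_comm)
    _ = ∑ ω ∈ G.powerset, ∑ η ∈ A, ∑ ζ ∈ B, QG_T G x ω η ζ := Finset.sum_comm

theorem QG_src_symm {n : ℕ} (u w : Site 2 n) : src u w = src w u := by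
  funext v
  simp only [src]
  ring

theorem QG_src_add {n : ℕ} (u v w : Site 2 n) : src u w + src u v = src v w := by
  funext z
  simp only [src, Pi.add_apply]
  have h2 : ∀ a : ZMod 2, a + a = 0 := fun a => CharTwo.add_self_eq_zero a
  linear_combination h2 (if z = u then (1 : ZMod 2) else 0)

theorem QG_src_self {n : ℕ} (S : Site 2 n → ZMod 2) : S + S = 0 := by
  funext z
  exact CharTwo.add_self_eq_zero _

theorem QG_sub {n : ℕ} (G ω γ η ζ : Finset (Edge 2 n)) (hγ : γ ⊆ ω)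
    (h : (η ∩ G) ∪ ζ ⊆ ω) : (symmDiff η γ ∩ G) ∪ symmDiff ζ γ ⊆ ω := by
  intro a ha
  rw [Finset.mem_union, Finset.mem_inter, Finset.mem_symmDiff, Finset.mem_symmDiff] at ha
  rcases ha with ⟨h1 | h1, h2⟩ | h1 | h1
  · exact h (Finset.mem_union_left _ (Finset.mem_inter.2 ⟨h1.1, h2⟩))
  · exact hγ h1.1
  · exact h (Finset.mem_union_right _ h1.1)
  · exact hγ h1.1

theorem QG_sd {n : ℕ} (η γ : Finset (Edge 2 n)) : symmDiff (symmDiff η γ) γ = η := by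
  rw [symmDiff_assoc, symmDiff_self, symmDiff_bot]

theorem QG_Tswitch (hQE : QE_stmt) {n : ℕ} (G ω γ η ζ : Finset (Edge 2 n)) (x : ℝ)
    (hω : ω ⊆ G) (hγ : γ ⊆ ω) :
    QG_T G x ω (symmDiff η γ) (symmDiff ζ γ) = QG_T G x ω η ζ := by
  unfold QG_T
  by_cases h : (η ∩ G) ∪ ζ ⊆ ω
  · rw [if_pos h, if_pos (QG_sub G ω γ η ζ hγ h), hQE n G η ζ ω γ x hω h hγ]
  · rw [if_neg h, if_neg]
    intro h'
    apply h
    have := QG_sub G ω γ _ _ hγ h'
    rwa [QG_sd, QG_sd] at this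

theorem QG_bd_erase {n : ℕ} (η : Finset (Edge 2 n)) (e : Edge 2 n) (he : e ∈ η) :
    bd (η.erase e) = bd η + src e.1 (dn e) := by
  funext v
  have h1 : bd η v = ((if e.1 = v then (1 : ZMod 2) else 0) + (if dn e = v then 1 else 0)) +
      bd (η.erase e) v := by
    unfold bd
    rw [Finset.add_sum_erase η (fun e => (if e.1 = v then (1 : ZMod 2) else 0) +
      (if dn e = v then 1 else 0)) he]
  have h2 : src e.1 (dn e) v =
      ((if e.1 = v then (1 : ZMod 2) else 0) + (if dn e = v then 1 else 0)) := by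
    simp only [src, eq_comm]
  have h3 : ∀ a : ZMod 2, a + a = 0 := fun a => CharTwo.add_self_eq_zero a
  rw [Pi.add_apply, h1, h2]
  linear_combination - h3 ((if e.1 = v then (1 : ZMod 2) else 0) + (if dn e = v then 1 else 0))

theorem QG_inout {n : ℕ} [NeZero n] (r : ℕ) (u₀ : Site 2 n) (e : Edge 2 n) :
    src e.1 (dn e) = src (inn r u₀ e) (outn r u₀ e) := by
  unfold inn outn
  split_ifs
  · rfl
  · exact QG_src_symm _ _

theorem QG_D {n : ℕ} [NeZero n] (r : ℕ) (u₀ w : Site 2 n) (e : Edge 2 n) (x : ℝ) (hx : 0 < x) :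
    (∑ η ∈ (QG_A (univ : Finset (Edge 2 n)) (src (inn r u₀ e) w)).filter (fun η => e ∈ η),
      x ^ η.card) ≤ x * Zs univ (src (outn r u₀ e) w) x := by
  set A := (QG_A (univ : Finset (Edge 2 n)) (src (inn r u₀ e) w)).filter (fun η => e ∈ η) with hA
  have hinj : Set.InjOn (fun η : Finset (Edge 2 n) => η.erase e) (A : Set (Finset (Edge 2 n))) := by
    intro η hη ζ hζ h
    have h1 : e ∈ η := (Finset.mem_filter.1 (Finset.mem_coe.1 hη)).2
    have h2 : e ∈ ζ := (Finset.mem_filter.1 (Finset.mem_coe.1 hζ)).2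
    have h3 : η.erase e = ζ.erase e := h
    rw [← Finset.insert_erase h1, h3, Finset.insert_erase h2]
  have h1 : (∑ η ∈ A, x ^ η.card) = ∑ ξ ∈ A.image (fun η => η.erase e), x * x ^ ξ.card := by
    rw [Finset.sum_image hinj]
    refine Finset.sum_congr rfl (fun η hη => ?_)
    have h1 : e ∈ η := (Finset.mem_filter.1 hη).2
    rw [← Finset.card_erase_add_one h1, pow_succ, mul_comm]
  rw [h1, QG_Zs, Finset.mul_sum]
  refine Finset.sum_le_sum_of_subset_of_nonneg ?_ (fun ξ _ _ => by positivity)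
  intro ξ hξ
  obtain ⟨η, hη, rfl⟩ := Finset.mem_image.1 hξ
  rw [QG_mem]
  refine ⟨Finset.subset_univ _, ?_⟩
  have h2 := Finset.mem_filter.1 hη
  have h3 := (QG_mem _ _ _).1 h2.1
  rw [QG_bd_erase η e h2.2, h3.2, QG_inout r u₀, QG_src_add]

theorem QG_cut {n : ℕ} [NeZero n] (r : ℕ) (u₀ : Site 2 n) (e : Edge 2 n) (he : e ∈ cut r u₀) :
    e ∉ FS r u₀ := by
  intro h
  have h1 := (Finset.mem_filter.1 he).2
  have h2 := (Finset.mem_filter.1 h).2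
  rcases h1 with h1 | h1
  · exact h1.2 h2.2
  · exact h1.1 h2.1

theorem QG_e (hQA : QA_stmt) (hQE : QE_stmt) {n r : ℕ} [NeZero n] (hn : 3 ≤ n)
    (u₀ u w : Site 2 n) (x : ℝ) (ω : Finset (Edge 2 n)) (hω : ω ⊆ FS r u₀)
    (e : Edge 2 n) (he : e ∈ cut r u₀) (hr : (dG ω).Reachable u (inn r u₀ e)) :
    (∑ η ∈ (QG_A (univ : Finset (Edge 2 n)) (src u w)).filter (fun η => e ∈ η),
      ∑ ζ ∈ QG_A (FS r u₀) 0, QG_T (FS r u₀) x ω η ζ) =
    ∑ η ∈ (QG_A (univ : Finset (Edge 2 n)) (src (inn r u₀ e) w)).filter (fun η => e ∈ η),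
      ∑ ζ ∈ QG_A (FS r u₀) (src u (inn r u₀ e)), QG_T (FS r u₀) x ω η ζ := by
  obtain ⟨γ, hγ, hbγ⟩ := (hQA n hn).2 ω u (inn r u₀ e) hr
  have hsym := (hQA n hn).1
  have heγ : e ∉ γ := fun h => QG_cut r u₀ e he (hω (hγ h))
  have heη : ∀ η : Finset (Edge 2 n), e ∈ symmDiff η γ ↔ e ∈ η := by
    intro η
    rw [Finset.mem_symmDiff]
    tauto
  refine Finset.sum_nbij' (fun η => symmDiff η γ) (fun η => symmDiff η γ) ?_ ?_
    (fun η _ => QG_sd η γ) (fun η _ => QG_sd η γ) ?_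
  · intro η hη
    rw [Finset.mem_filter, QG_mem] at hη ⊢
    refine ⟨⟨Finset.subset_univ _, ?_⟩, (heη η).2 hη.2⟩
    rw [hsym, hη.1.2, hbγ, QG_src_add]
  · intro η hη
    rw [Finset.mem_filter, QG_mem] at hη ⊢
    refine ⟨⟨Finset.subset_univ _, ?_⟩, (heη η).2 hη.2⟩
    rw [hsym, hη.1.2, hbγ, QG_src_symm u, QG_src_add]
  · intro η hη
    refine Finset.sum_nbij' (fun ζ => symmDiff ζ γ) (fun ζ => symmDiff ζ γ) ?_ ?_
      (fun ζ _ => QG_sd ζ γ) (fun ζ _ => QG_sd ζ γ) ?_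
    · intro ζ hζ
      rw [QG_mem] at hζ ⊢
      refine ⟨?_, ?_⟩
      · intro a ha
        rcases Finset.mem_symmDiff.1 ha with h | h
        · exact hζ.1 h.1
        · exact hω (hγ h.1)
      · rw [hsym, hζ.2, hbγ, zero_add]
    · intro ζ hζ
      rw [QG_mem] at hζ ⊢
      refine ⟨?_, ?_⟩
      · intro a ha
        rcases Finset.mem_symmDiff.1 ha with h | h
        · exact hζ.1 h.1
        · exact hω (hγ h.1)
      · rw [hsym, hζ.2, hbγ, QG_src_self]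
    · intro ζ hζ
      exact (QG_Tswitch hQE _ _ _ _ _ x hω hγ).symm

theorem QG_B (hQA : QA_stmt) (hQE : QE_stmt) (hQF : QF_stmt) {n r : ℕ} [NeZero n] (hn : 3 ≤ n)
    (u₀ u w : Site 2 n) (x : ℝ) (hx : 0 < x) (hx1 : x < 1) (hu : u ∈ Box r u₀)
    (hw : w ∉ Box r u₀) (ω : Finset (Edge 2 n)) (hω : ω ⊆ FS r u₀) :
    (∑ η ∈ QG_A (univ : Finset (Edge 2 n)) (src u w),
      ∑ ζ ∈ QG_A (FS r u₀) 0, QG_T (FS r u₀) x ω η ζ) ≤
    ∑ e ∈ cut r u₀,
      ∑ η ∈ (QG_A (univ : Finset (Edge 2 n)) (src (inn r u₀ e) w)).filter (fun η => e ∈ η),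
        ∑ ζ ∈ QG_A (FS r u₀) (src u (inn r u₀ e)), QG_T (FS r u₀) x ω η ζ := by
  classical
  have hT := QG_T_nonneg (FS r u₀) x hx hx1
  have h1 : (∑ η ∈ QG_A (univ : Finset (Edge 2 n)) (src u w),
      ∑ ζ ∈ QG_A (FS r u₀) 0, QG_T (FS r u₀) x ω η ζ) ≤
    ∑ η ∈ QG_A (univ : Finset (Edge 2 n)) (src u w),
      ∑ e ∈ cut r u₀, if e ∈ η ∧ (dG ω).Reachable u (inn r u₀ e) then
        ∑ ζ ∈ QG_A (FS r u₀) 0, QG_T (FS r u₀) x ω η ζ else 0 := by
    refine Finset.sum_le_sum (fun η hη => ?_)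
    rw [QG_mem] at hη
    have hnn : 0 ≤ ∑ ζ ∈ QG_A (FS r u₀) 0, QG_T (FS r u₀) x ω η ζ :=
      Finset.sum_nonneg (fun ζ _ => hT _ _ _)
    by_cases hc : η ∩ FS r u₀ ⊆ ω
    · obtain ⟨e, he, hec, her⟩ := hQF n r hn u₀ u w η ω hη.2 hu hw hω hc
      have h2 : (∑ ζ ∈ QG_A (FS r u₀) 0, QG_T (FS r u₀) x ω η ζ) =
          if e ∈ η ∧ (dG ω).Reachable u (inn r u₀ e) then
          ∑ ζ ∈ QG_A (FS r u₀) 0, QG_T (FS r u₀) x ω η ζ else 0 := by
        rw [if_pos ⟨he, her⟩]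
      refine h2.le.trans ?_
      refine Finset.single_le_sum (f := fun e => if e ∈ η ∧ (dG ω).Reachable u (inn r u₀ e) then
        ∑ ζ ∈ QG_A (FS r u₀) 0, QG_T (FS r u₀) x ω η ζ else 0) ?_ hec
      intro e' _
      show 0 ≤ if e' ∈ η ∧ (dG ω).Reachable u (inn r u₀ e') then
        ∑ ζ ∈ QG_A (FS r u₀) 0, QG_T (FS r u₀) x ω η ζ else 0
      split_ifs
      · exact hnn
      · exact le_rfl
    · have h0 : (∑ ζ ∈ QG_A (FS r u₀) 0, QG_T (FS r u₀) x ω η ζ) = 0 := by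
        refine Finset.sum_eq_zero (fun ζ _ => ?_)
        unfold QG_T
        rw [if_neg]
        intro h
        exact hc (fun a ha => h (Finset.mem_union_left _ ha))
      rw [h0]
      exact Finset.sum_nonneg (fun e _ => by split_ifs <;> exact le_rfl)
  refine h1.trans ?_
  rw [Finset.sum_comm]
  refine Finset.sum_le_sum (fun e he => ?_)
  by_cases hr : (dG ω).Reachable u (inn r u₀ e)
  · rw [← QG_e hQA hQE hn u₀ u w x ω hω e he hr, Finset.sum_filter]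
    refine le_of_eq (Finset.sum_congr rfl (fun η _ => ?_))
    by_cases heη : e ∈ η
    · rw [if_pos ⟨heη, hr⟩, if_pos heη]
    · rw [if_neg (fun h => heη h.1), if_neg heη]
  · rw [Finset.sum_eq_zero]
    · exact Finset.sum_nonneg (fun η _ => Finset.sum_nonneg (fun ζ _ => hT _ _ _))
    · intro η _
      rw [if_neg (fun h => hr h.2)]

theorem QG (hQA : QA_stmt) (hQD : QD_stmt) (hQE : QE_stmt) (hQF : QF_stmt) : QG_stmt := by
  intro n r _ hn u₀ u w x hx hx1 hu hw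
  have hZ := QG_pos (univ : Finset (Edge 2 n)) x hx
  have hZS := QG_pos (FS r u₀) x hx
  have key : Zs univ (src u w) x * Zs (FS r u₀) 0 x ≤
      ∑ e ∈ cut r u₀, (x * Zs univ (src (outn r u₀ e) w) x) *
        Zs (FS r u₀) (src u (inn r u₀ e)) x := by
    rw [QG_Zs, QG_Zs, QG_L hQD (FS r u₀) _ _ x (fun ζ hζ => ((QG_mem _ _ _).1 hζ).1)]
    refine (Finset.sum_le_sum (f := fun ω => ∑ η ∈ QG_A (univ : Finset (Edge 2 n)) (src u w),
      ∑ ζ ∈ QG_A (FS r u₀) 0, QG_T (FS r u₀) x ω η ζ) (fun ω hω => QG_B hQA hQE hQF hn u₀ u w x hx hx1 hu hw ω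
      (Finset.mem_powerset.1 hω))).trans ?_
    rw [Finset.sum_comm]
    refine Finset.sum_le_sum (fun e he => ?_)
    rw [← QG_L hQD (FS r u₀) _ _ x (fun ζ hζ => ((QG_mem _ _ _).1 hζ).1), ← QG_Zs]
    exact mul_le_mul_of_nonneg_right (QG_D r u₀ w e x hx) (QG_nonneg _ _ x hx)
  have h2 : corr univ x u w = (Zs univ (src u w) x * Zs (FS r u₀) 0 x) /
      (Zs (univ : Finset (Edge 2 n)) 0 x * Zs (FS r u₀) 0 x) := by
    unfold corr
    field_simp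
  have h3 : (∑ e ∈ cut r u₀, x * corr (FS r u₀) x u (inn r u₀ e) *
      corr univ x (outn r u₀ e) w) = (∑ e ∈ cut r u₀, (x * Zs univ (src (outn r u₀ e) w) x) *
        Zs (FS r u₀) (src u (inn r u₀ e)) x) / (Zs (univ : Finset (Edge 2 n)) 0 x * Zs (FS r u₀) 0 x) := by
    rw [Finset.sum_div]
    refine Finset.sum_congr rfl (fun e _ => ?_)
    unfold corr
    field_simp
  rw [h2, h3]
  exact div_le_div_of_nonneg_right key (mul_pos hZ hZS).le

end CU
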